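import Pool.Agent.KS6_69.SD.A

namespace Pool.Agent.KS6_69.SD

variable {D : Type} [DivisionRing D] {φ : D → ℝ ≃o ℝ}

lemma MV.one (h : MV φ) : φ 1 = 1 := by simpa using (h.mul one_ne_zero one_ne_zero).symm

lemma MV.ap (h : MV φ) {x y : D} (hx : x ≠ 0) (hy : y ≠ 0) (p : ℝ) : φ (x * y) p = φ x (φ y p) := by
  rw [h.mul hx hy]; rfl

lemma MV.neg (h : MV φ) {x : D} (hx : x ≠ 0) (p : ℝ) : φ (-x) p = φ x p := by
  have h0 : (-1 : D) ≠ 0 := by simp
  have h1 : ∀ p, φ (-1) (φ (-1) p) = p := fun p => by rw [← h.ap h0 h0]; simp [h.one]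
  have h2 : φ (-1) p = p := by
    rcases lt_trichotomy (φ (-1) p) p with k | k | k
    · have := (φ (-1)).strictMono k; rw [h1] at this; exact absurd this k.not_gt
    · exact k
    · have := (φ (-1)).strictMono k; rw [h1] at this; exact absurd this k.not_gt
  rw [← mul_neg_one, h.ap hx h0, h2]

lemma MV.inv (h : MV φ) {x : D} (hx : x ≠ 0) (p : ℝ) : φ x⁻¹ p = (φ x).symm p := by
  rw [eq_comm, OrderIso.symm_apply_eq, ← h.ap hx (inv_ne_zero hx), mul_inv_cancel₀ hx, h.one]; rfl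

def MV.A (h : MV φ) (p q : ℝ) : AddSubgroup D where
  carrier := {x | x ≠ 0 → q < φ x p}
  zero_mem' k := absurd rfl k
  add_mem' {x y} hx hy k := by
    by_cases h1 : x = 0
    · subst h1; rw [zero_add] at k ⊢; exact hy k
    by_cases h2 : y = 0
    · subst h2; rw [add_zero]; exact hx h1
    exact (lt_min (hx h1) (hy h2)).trans_le (h.add h1 h2 k p)
  neg_mem' {x} hx k := by
    rw [h.neg (neg_ne_zero.1 k)]; exact hx (neg_ne_zero.1 k)

lemma MV.mulA (h : MV φ) {p q r s : ℝ} {x y : D} (hx : x ∈ h.A r s) (hy : y ≠ 0 → r ≤ φ y p)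
    (hq : q ≤ s) : x * y ∈ h.A p q := fun k => by
  rw [h.ap (left_ne_zero_of_mul k) (right_ne_zero_of_mul k)]
  exact hq.trans_lt ((hx (left_ne_zero_of_mul k)).trans_le
    ((φ x).monotone (hy (right_ne_zero_of_mul k))))

def MV.S (h : MV φ) : NonUnitalSubring D where
  __ := h.A 0 1
  mul_mem' hx hy := h.mulA hx (fun k => (zero_lt_one.trans (hy k)).le) le_rfl

lemma MV.simple (h : MV φ) : IsSimpleRing h.S := by
  obtain ⟨x, hx, h1, -⟩ := h.tr zero_lt_one (show (2 : ℝ) < 3 by norm_num)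
  have : Nontrivial h.S := ⟨⟨x, fun _ => by rw [h1]; norm_num⟩, 0, fun k => hx (congrArg (·.1) k)⟩
  refine ⟨⟨fun I => ?_⟩⟩
  by_cases k : ∀ y ∈ I, y = 0
  · exact .inl (eq_bot_iff.2 fun y hy => (TwoSidedIdeal.mem_bot _).2 (k y hy))
  push Not at k
  obtain ⟨y, hy, y0⟩ := k
  have y0 : y.1 ≠ 0 := fun k => y0 (Subtype.ext k)
  refine .inr (eq_top_iff.2 fun z _ => ?_)
  by_cases z0 : z.1 = 0
  · rw [show z = 0 from Subtype.ext z0]; exact I.zero_mem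
  have h2 : (φ z).symm 1 < 0 := by rw [OrderIso.symm_apply_lt]; exact z.2 z0
  have h3 : (φ y).symm 0 < 0 := by
    rw [OrderIso.symm_apply_lt]; exact zero_lt_one.trans (y.2 y0)
  obtain ⟨b, b0, h4, h5⟩ := h.tr h2 (show (φ y).symm 0 - 1 < 2 by linarith)
  have hb : b ∈ h.S := fun _ => by rw [h5]; norm_num
  have ha : z.1 * b⁻¹ * y.1⁻¹ ∈ h.S := fun _ => by
    rw [h.ap (mul_ne_zero z0 (inv_ne_zero b0)) (inv_ne_zero y0), h.ap z0 (inv_ne_zero b0),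
      ← OrderIso.symm_apply_lt, h.inv b0, h.inv y0, OrderIso.lt_symm_apply, h4]
    linarith
  have : z = ⟨_, ha⟩ * y * ⟨b, hb⟩ := Subtype.ext (by simp [y0, b0])
  rw [this]
  exact I.mul_mem_right _ _ (I.mul_mem_left _ _ hy)

lemma MV.idem (h : MV φ) (L : NonUnitalSubring h.S) (h0 : L ≠ ⊥)
    (h1 : ∀ r x : h.S, x ∈ L → r * x ∈ L)
    (h2 : AddSubgroup.closure {z : h.S | ∃ a ∈ L, ∃ b ∈ L, z = a * b} = L.toAddSubgroup) :
    ∃ c, c ≤ 0 ∧ ∀ x : D, x ∈ h.A c 1 ↔ ∃ y ∈ L, y.1 = x := by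
  let C : Set ℝ := {c | ∃ y ∈ L, y.1 ≠ 0 ∧ (φ y).symm 1 = c}
  have c1 : C.Nonempty := by
    by_contra k
    exact h0 (eq_bot_iff.2 fun y hy => NonUnitalSubring.mem_bot.2 (Subtype.ext
      (not_not.1 fun k' => k ⟨_, y, hy, k', rfl⟩)))
  have c2 : (0 : ℝ) ∈ upperBounds C := by
    rintro _ ⟨y, -, y0, rfl⟩
    exact ((φ y).symm_apply_lt.2 (y.2 y0)).le
  have ind : ∀ (P : AddSubgroup D), (∀ a ∈ L, ∀ b ∈ L, a.1 * b.1 ∈ P) → ∀ y ∈ L, y.1 ∈ P :=
    fun P hP y hy => by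
      have : L.toAddSubgroup ≤ P.comap (h.A 0 1).subtype := by
        rw [← h2, AddSubgroup.closure_le]
        rintro _ ⟨a, ha, b, hb, rfl⟩
        exact hP a ha b hb
      exact this hy
  refine ⟨sSup C, csSup_le c1 c2, fun x => ⟨fun hx => ?_, ?_⟩⟩
  · by_cases x0 : x = 0
    · exact ⟨0, L.zero_mem, x0.symm⟩
    obtain ⟨_, ⟨y, hy, y0, rfl⟩, k⟩ := exists_lt_of_lt_csSup c1 ((φ x).symm_apply_lt.2 (hx x0))
    have hz : x * y.1⁻¹ ∈ h.A 1 1 := fun _ => by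
      rwa [h.ap x0 (inv_ne_zero y0), h.inv y0, ← OrderIso.symm_apply_lt]
    have := ind ((L.toAddSubgroup.map (h.A 0 1).subtype).comap
      (AddMonoidHom.mulLeft (x * y.1⁻¹))) (fun a ha b hb =>
        ⟨⟨_, h.mulA hz (fun k => (a.2 k).le) le_rfl⟩ * b, h1 _ _ hb, mul_assoc _ _ _⟩) y hy
    obtain ⟨w, h3, h4⟩ := this
    exact ⟨w, h3, by simpa [y0] using h4⟩
  · rintro ⟨y, hy, rfl⟩
    refine ind _ (fun a _ b hb => h.mulA a.2 (fun k => zero_le_one.trans ?_) le_rfl) y hy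
    exact (φ b).symm_apply_le.1 (le_csSup ⟨0, c2⟩ ⟨b, hb, k, rfl⟩)

/-- Right ideals, by the mirror image of the proof for left ideals. -/
lemma MV.idemR (h : MV φ) (L : NonUnitalSubring h.S) (h0 : L ≠ ⊥)
    (h1 : ∀ r x : h.S, x ∈ L → x * r ∈ L)
    (h2 : AddSubgroup.closure {z : h.S | ∃ a ∈ L, ∃ b ∈ L, z = a * b} = L.toAddSubgroup) :
    ∃ q, 1 ≤ q ∧ ∀ x : D, x ∈ h.A 0 q ↔ ∃ y ∈ L, y.1 = x := by
  let C : Set ℝ := {c | ∃ y ∈ L, y.1 ≠ 0 ∧ φ y 0 = c}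
  have c1 : C.Nonempty := by
    by_contra k
    exact h0 (eq_bot_iff.2 fun y hy => NonUnitalSubring.mem_bot.2 (Subtype.ext
      (not_not.1 fun k' => k ⟨_, y, hy, k', rfl⟩)))
  have c2 : (1 : ℝ) ∈ lowerBounds C := by
    rintro _ ⟨y, -, y0, rfl⟩
    exact (y.2 y0).le
  have ind : ∀ (P : AddSubgroup D), (∀ a ∈ L, ∀ b ∈ L, a.1 * b.1 ∈ P) → ∀ y ∈ L, y.1 ∈ P :=
    fun P hP y hy => by
      have : L.toAddSubgroup ≤ P.comap (h.A 0 1).subtype := by
        rw [← h2, AddSubgroup.closure_le]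
        rintro _ ⟨a, ha, b, hb, rfl⟩
        exact hP a ha b hb
      exact this hy
  refine ⟨sInf C, le_csInf c1 c2, fun x => ⟨fun hx => ?_, ?_⟩⟩
  · by_cases x0 : x = 0
    · exact ⟨0, L.zero_mem, x0.symm⟩
    obtain ⟨_, ⟨y, hy, y0, rfl⟩, k⟩ := exists_lt_of_csInf_lt c1 (hx x0)
    have hz : y.1⁻¹ * x ∈ h.A 0 0 := fun _ => by
      rwa [h.ap (inv_ne_zero y0) x0, h.inv y0, OrderIso.lt_symm_apply]
    have := ind ((L.toAddSubgroup.map (h.A 0 1).subtype).comap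
      (AddMonoidHom.mulRight (y.1⁻¹ * x))) (fun a ha b hb =>
        ⟨a * ⟨_, h.mulA b.2 (fun k => (hz k).le) le_rfl⟩, h1 _ _ ha, (mul_assoc _ _ _).symm⟩) y hy
    obtain ⟨w, h3, h4⟩ := this
    exact ⟨w, h3, by simpa [y0] using h4⟩
  · rintro ⟨y, hy, rfl⟩
    refine ind (h.A 0 (sInf C)) (fun a ha b _ k => ?_) y hy
    have a0 := left_ne_zero_of_mul k
    have b0 := right_ne_zero_of_mul k
    rw [h.ap a0 b0]
    exact (csInf_le ⟨1, c2⟩ ⟨a, ha, a0, rfl⟩).trans_lt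
      ((φ a).strictMono (zero_lt_one.trans (b.2 b0)))

/-- The left ideal with parameter `c`. -/
def MV.leftI (h : MV φ) (c : ℝ) (_ : c ≤ 0) : NonUnitalSubring h.S where
  carrier := {y | y.1 ∈ h.A c 1}
  zero_mem' := (h.A c 1).zero_mem
  add_mem' hx hy := (h.A c 1).add_mem hx hy
  neg_mem' hx := (h.A c 1).neg_mem hx
  mul_mem' {x y} hx hy := h.mulA (show x.1 ∈ h.A c 1 from hx)
    (fun k => (show c ≤ 1 by linarith).trans (hy k).le) le_rfl

/-- The right ideal with parameter `q`. -/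
def MV.rightI (h : MV φ) (q : ℝ) (_ : 1 ≤ q) : NonUnitalSubring h.S where
  carrier := {y | y.1 ∈ h.A 0 q}
  zero_mem' := (h.A 0 q).zero_mem
  add_mem' hx hy := (h.A 0 q).add_mem hx hy
  neg_mem' hx := (h.A 0 q).neg_mem hx
  mul_mem' {x y} hx _ := h.mulA (show x.1 ∈ h.A 0 q from hx)
    (fun k => (zero_lt_one.trans (y.2 k)).le) le_rfl

/-- A nonzero idempotent left ideal. -/
def IsIdemLeft {A : Type} [NonUnitalRing A] (L : NonUnitalSubring A) : Prop :=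
  L ≠ ⊥ ∧ (∀ r x : A, x ∈ L → r * x ∈ L) ∧
    AddSubgroup.closure {z : A | ∃ a ∈ L, ∃ b ∈ L, z = a * b} = L.toAddSubgroup

/-- A nonzero idempotent right ideal. -/
def IsIdemRight {A : Type} [NonUnitalRing A] (L : NonUnitalSubring A) : Prop :=
  L ≠ ⊥ ∧ (∀ r x : A, x ∈ L → x * r ∈ L) ∧
    AddSubgroup.closure {z : A | ∃ a ∈ L, ∃ b ∈ L, z = a * b} = L.toAddSubgroup

lemma MV.leftI_idem (h : MV φ) (c : ℝ) (hc : c ≤ 0) : IsIdemLeft (h.leftI c hc) := by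
  refine ⟨fun k => ?_, fun r x hx => ?_, le_antisymm ?_ fun x hx => ?_⟩
  · obtain ⟨x, x0, h1, h2⟩ := h.tr (show c < 1 by linarith) (show (2 : ℝ) < 3 by norm_num)
    have hx : x ∈ h.S := fun _ => by
      have := (φ x).monotone hc
      rw [h1] at this
      linarith
    have : (⟨x, hx⟩ : h.S) ∈ h.leftI c hc := fun _ => by
      show 1 < φ x c
      rw [h1]; norm_num
    rw [k, NonUnitalSubring.mem_bot] at this
    exact x0 (congrArg Subtype.val this)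
  · refine h.mulA (show r.1 ∈ h.A 0 1 from r.2) (fun k => ?_) le_rfl
    exact zero_le_one.trans (hx k).le
  · rw [AddSubgroup.closure_le]
    rintro _ ⟨a, ha, b, hb, rfl⟩
    exact (h.leftI c hc).mul_mem ha hb
  · by_cases x0 : x.1 = 0
    · rw [show x = 0 from Subtype.ext x0]
      exact AddSubgroup.zero_mem _
    have hs : (φ x).symm 1 < c := (OrderIso.symm_apply_lt _).2 (hx x0)
    obtain ⟨b, b0, h1, h2⟩ := h.tr (show ((φ x).symm 1 + c) / 2 < c by linarith)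
      (show c < 2 by linarith)
    have hb : b ∈ h.A c 1 := fun _ => by rw [h2]; norm_num
    have ha : x.1 * b⁻¹ ∈ h.A c 1 := fun _ => by
      rw [h.ap x0 (inv_ne_zero b0), h.inv b0, ← h1, OrderIso.symm_apply_apply,
        ← OrderIso.symm_apply_lt]
      linarith
    have up : ∀ y : D, y ∈ h.A c 1 → y ∈ h.S := fun y hy k => (hy k).trans_le ((φ y).monotone hc)
    refine AddSubgroup.subset_closure ⟨⟨_, up _ ha⟩, ha, ⟨b, up _ hb⟩, hb, Subtype.ext ?_⟩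
    simp [b0]

lemma MV.rightI_idem (h : MV φ) (q : ℝ) (hq : 1 ≤ q) : IsIdemRight (h.rightI q hq) := by
  have up : ∀ y : D, y ∈ h.A 0 q → y ∈ h.S := fun y hy k => hq.trans_lt (hy k)
  refine ⟨fun k => ?_, fun r x hx => ?_, le_antisymm ?_ fun x hx => ?_⟩
  · obtain ⟨x, x0, h1, h2⟩ := h.tr zero_lt_one (show q + 1 < q + 2 by linarith)
    have hx : x ∈ h.A 0 q := fun _ => by rw [h1]; linarith
    have : (⟨x, up _ hx⟩ : h.S) ∈ h.rightI q hq := hx
    rw [k, NonUnitalSubring.mem_bot] at this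
    exact x0 (congrArg Subtype.val this)
  · exact h.mulA (show x.1 ∈ h.A 0 q from hx) (fun k => (zero_lt_one.trans (r.2 k)).le) le_rfl
  · rw [AddSubgroup.closure_le]
    rintro _ ⟨a, ha, b, hb, rfl⟩
    exact (h.rightI q hq).mul_mem ha hb
  · by_cases x0 : x.1 = 0
    · rw [show x = 0 from Subtype.ext x0]
      exact AddSubgroup.zero_mem _
    have hs : q < φ x 0 := hx x0
    -- a sends 0 to a point between q and φ x 0, and q + 1 to φ x 0
    obtain ⟨a, a0, h1, h2⟩ := h.tr (show (0 : ℝ) < q + 1 by linarith)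
      (show (q + φ x 0) / 2 < φ x 0 by linarith)
    have ha : a ∈ h.A 0 q := fun _ => by rw [h1]; linarith
    have hb : a⁻¹ * x.1 ∈ h.A 0 q := fun _ => by
      rw [h.ap (inv_ne_zero a0) x0, h.inv a0, ← h2, OrderIso.symm_apply_apply]
      linarith
    refine AddSubgroup.subset_closure ⟨⟨a, up _ ha⟩, ha, ⟨_, up _ hb⟩, hb, Subtype.ext ?_⟩
    simp [a0]

/-- Conjugation inside the division ring. -/
lemma MV.conjIso (h : MV φ) (L : NonUnitalSubring h.S) (u : D) (u0 : u ≠ 0)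
    (k1 : ∀ x, u⁻¹ * x * u ∈ h.S ↔ ∃ y ∈ L, y.1 = x) : Nonempty (L ≃+* h.S) := by
  let f : L →ₙ+* h.S :=
    { toFun := fun y => ⟨u⁻¹ * y.1.1 * u, (k1 _).2 ⟨y.1, y.2, rfl⟩⟩
      map_mul' := fun a b => Subtype.ext (by simp [mul_assoc, u0])
      map_zero' := Subtype.ext (by simp)
      map_add' := fun a b => Subtype.ext (by simp [mul_add, add_mul]) }
  refine ⟨RingEquiv.ofBijective f ⟨fun a b k => Subtype.ext (Subtype.ext ?_), fun z => ?_⟩⟩
  · have : u⁻¹ * a.1.1 * u = u⁻¹ * b.1.1 * u := congrArg Subtype.val k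
    simpa [u0] using this
  · obtain ⟨y, hy, k⟩ := (k1 (u * z * u⁻¹)).1 (by simp [mul_assoc, u0])
    exact ⟨⟨y, hy⟩, Subtype.ext (show u⁻¹ * y.1 * u = z by simp [k, mul_assoc, u0])⟩

lemma MV.isoL (h : MV φ) (L : NonUnitalSubring h.S) (hL : IsIdemLeft L) :
    Nonempty (L ≃+* h.S) := by
  obtain ⟨c, hc, h3⟩ := h.idem L hL.1 hL.2.1 hL.2.2
  obtain ⟨u, u0, h4, h5⟩ := h.tr zero_lt_one (hc.trans_lt zero_lt_one)
  refine h.conjIso L u u0 fun x => ?_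
  rw [← h3]
  by_cases x0 : x = 0
  · simp [x0]
  have : 1 < φ (u⁻¹ * x * u) 0 ↔ 1 < φ x c := by
    rw [h.ap (mul_ne_zero (inv_ne_zero u0) x0) u0, h.ap (inv_ne_zero u0) x0, h4, h.inv u0,
      OrderIso.lt_symm_apply, h5]
  exact ⟨fun k _ => this.1 (k (by simp [u0, x0])), fun k _ => this.2 (k x0)⟩

lemma MV.isoR (h : MV φ) (L : NonUnitalSubring h.S) (hL : IsIdemRight L) :
    Nonempty (L ≃+* h.S) := by
  obtain ⟨q, hq, h3⟩ := h.idemR L hL.1 hL.2.1 hL.2.2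
  obtain ⟨u, u0, h4, h5⟩ := h.tr zero_lt_one (zero_lt_one.trans_le hq)
  refine h.conjIso L u u0 fun x => ?_
  rw [← h3]
  by_cases x0 : x = 0
  · simp [x0]
  have : 1 < φ (u⁻¹ * x * u) 0 ↔ q < φ x 0 := by
    rw [h.ap (mul_ne_zero (inv_ne_zero u0) x0) u0, h.ap (inv_ne_zero u0) x0, h4, h.inv u0,
      OrderIso.lt_symm_apply, h5]
  exact ⟨fun k _ => this.1 (k (by simp [u0, x0])), fun k _ => this.2 (k x0)⟩

lemma MV.leftI_le (h : MV φ) {c d : ℝ} (hc : c ≤ 0) (hd : d ≤ 0) :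
    h.leftI c hc ≤ h.leftI d hd ↔ c ≤ d := by
  refine ⟨fun k => ?_, fun k x hx x0 => (hx x0).trans_le ((φ x).monotone k)⟩
  by_contra hcd
  push Not at hcd
  obtain ⟨x, x0, h1, h2⟩ := h.tr hcd (show (1 : ℝ) < 2 by norm_num)
  have hx : x ∈ h.S := fun _ => by
    have := (φ x).monotone hc
    rw [h2] at this
    linarith
  have h3 : (⟨x, hx⟩ : h.S) ∈ h.leftI c hc := fun _ => by
    show 1 < φ x c
    rw [h2]; norm_num
  have h4 : (1 : ℝ) < φ x d := (k h3) x0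
  rw [h1] at h4
  exact lt_irrefl _ h4

lemma MV.rightI_le (h : MV φ) {c d : ℝ} (hc : 1 ≤ c) (hd : 1 ≤ d) :
    h.rightI c hc ≤ h.rightI d hd ↔ d ≤ c := by
  refine ⟨fun k => ?_, fun k x hx x0 => k.trans_lt (hx x0)⟩
  by_contra hcd
  push Not at hcd
  obtain ⟨x, x0, h1, h2⟩ := h.tr zero_lt_one (show d < d + 1 by linarith)
  have hx : x ∈ h.S := fun _ => by rw [h1]; linarith
  have h3 : (⟨x, hx⟩ : h.S) ∈ h.rightI c hc := fun _ => by
    show c < φ x 0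
    rw [h1]; exact hcd
  have h4 : d < φ x 0 := (k h3) x0
  rw [h1] at h4
  exact lt_irrefl _ h4

end Pool.Agent.KS6_69.SD
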